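import Pool.Agent.Lib.ATQ.FinalB

open scoped Matrix.Norms.Operator
open Pool.Agent.Lib.MP_ad9325_ag

theorem Pool.Agent.Results.MP_ad9325_ag.ConnectionNotFlat.result :
    ∃ (S : Type) (_ : TopologicalSpace S) (_ : ChartedSpace (ℂ × ℂ) S) (ι : Type) (U : ι → Set S)
      (Γ : ι → ι → S → Matrix (Fin 6) (Fin 6) ℂ),
      IsCompactKaehler (ℂ × ℂ) S ∧ Pool.Agent.Lib.ATQ.IsCocycle (ℂ × ℂ) U Γ ∧
      (∃ A, Pool.Agent.Lib.ATQ.IsConn (V := ℂ × ℂ) U Γ A) ∧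
      ¬ ∃ A, Pool.Agent.Lib.ATQ.IsConn (V := ℂ × ℂ) U Γ A ∧
        ∀ i, ∀ p ∈ U i, ∀ u v, Pool.Agent.Lib.ATQ.Curv (A i) p u v = 0 :=
  Pool.Agent.Lib.ATQ.final_bundle
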