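import Pool.Agent.Lib.MP_ad9325_ag.Main

open scoped Manifold ContDiff
open Pool.Agent.Lib.MP_ad9325_ag

theorem Pool.Agent.Results.MP_ad9325_ag.FlagTorus.result :
    ∃ (_ : ChartedSpace (Fin 8 → ℂ) (Matrix.SpecialLinearGroup (Fin 3) ℂ))
      (H : Subgroup (Matrix.SpecialLinearGroup (Fin 3) ℂ)) (_ : ChartedSpace (Fin 5 → ℂ) H)
      (M : Type) (_ : TopologicalSpace M) (_ : ChartedSpace (Fin 3 → ℂ) M),
      (∀ i j, ContMDiff 𝓘(ℂ, Fin 8 → ℂ) 𝓘(ℂ, ℂ) ω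
        (fun g : Matrix.SpecialLinearGroup (Fin 3) ℂ => g.1 i j)) ∧
      (∀ g, g ∈ H ↔ ∀ i j, j < i → g.1 i j = 0) ∧
      IsModel (Fin 8 → ℂ) (Fin 5 → ℂ) H ∧ IsCompactKaehler (Fin 3 → ℂ) M ∧
      HasGeometry (Fin 8 → ℂ) (Fin 5 → ℂ) H (Fin 3 → ℂ) M False ∧
      ¬ HasGeometry (Fin 8 → ℂ) (Fin 5 → ℂ) H (Fin 3 → ℂ) M True := by
  obtain ⟨M, _, _, _, hK, hT⟩ := exists_torus 3
  have := hK.compact
  have := hK.conn
  exact ⟨csG, borel, csB, M, inferInstance, inferInstance, entries_holo, mem_borel_iff, isModel,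
    hK, has_geometry hT, no_flat_geometry hT⟩
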