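import Pool.Agent.Lib.ATQ.Final

open scoped Manifold ContDiff
open Pool.Agent.Lib.MP_ad9325_ag

theorem Pool.Agent.Results.MP_ad9325_ag.NormalParabolic.result :
    ∃ (EG EH : Type) (_ : NormedAddCommGroup EG) (_ : NormedSpace ℂ EG)
      (_ : NormedAddCommGroup EH) (_ : NormedSpace ℂ EH)
      (_ : ChartedSpace EG (Matrix.SpecialLinearGroup (Fin 2) ℂ ×
        Matrix.SpecialLinearGroup (Fin 2) ℂ × Matrix.SpecialLinearGroup (Fin 6) ℂ))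
      (H : Subgroup (Matrix.SpecialLinearGroup (Fin 2) ℂ ×
        Matrix.SpecialLinearGroup (Fin 2) ℂ × Matrix.SpecialLinearGroup (Fin 6) ℂ))
      (_ : ChartedSpace EH H)
      (M : Type) (_ : TopologicalSpace M) (_ : ChartedSpace ((ℂ × ℂ) × (Fin 5 → ℂ)) M),
      (∀ i j, ContMDiff 𝓘(ℂ, EG) 𝓘(ℂ, ℂ) ω fun g : Matrix.SpecialLinearGroup (Fin 2) ℂ ×
        Matrix.SpecialLinearGroup (Fin 2) ℂ × Matrix.SpecialLinearGroup (Fin 6) ℂ => g.1.1 i j) ∧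
      (∀ i j, ContMDiff 𝓘(ℂ, EG) 𝓘(ℂ, ℂ) ω fun g : Matrix.SpecialLinearGroup (Fin 2) ℂ ×
        Matrix.SpecialLinearGroup (Fin 2) ℂ × Matrix.SpecialLinearGroup (Fin 6) ℂ => g.2.1.1 i j) ∧
      (∀ i j, ContMDiff 𝓘(ℂ, EG) 𝓘(ℂ, ℂ) ω fun g : Matrix.SpecialLinearGroup (Fin 2) ℂ ×
        Matrix.SpecialLinearGroup (Fin 2) ℂ × Matrix.SpecialLinearGroup (Fin 6) ℂ => g.2.2.1 i j) ∧
      (∀ g, g ∈ H ↔ (∀ i, i ≠ 0 → g.1.1 i 0 = 0) ∧ (∀ i, i ≠ 0 → g.2.1.1 i 0 = 0) ∧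
        ∀ i, i ≠ 0 → g.2.2.1 i 0 = 0) ∧
      IsModel EG EH H ∧ IsCompactKaehler ((ℂ × ℂ) × (Fin 5 → ℂ)) M ∧
      Pool.Agent.Lib.ATQ.HasNormalGeometry EG EH H ((ℂ × ℂ) × (Fin 5 → ℂ)) M ∧
      ¬ HasGeometry EG EH H ((ℂ × ℂ) × (Fin 5 → ℂ)) M True :=
  Pool.Agent.Lib.ATQ.final_geometry
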